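import Pool.Agent.H300BC.One

/-!
MP_06d6b9_co: line sets with at most `q + √q + 1` lines which cover the complement of a Baer subplane
cover everything or miss nearly all points of the subplane.

Proof idea. Let `m = √q`, let `A` be a set of `q + m + 1` lines covering all points outside the Baer
subplane but not its point `X`, and let `c` be the number of lines of `A` on a point. Double counting
gives `∑ (c - 1) (m + 1 - c) = 0` over all points; the uncovered points contribute `-(m + 1)` each. If no
point is on `m + 2` lines of `A`, all other terms are nonnegative, and every tangent through `X` has a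
point with a term at least `m - 1`, since the excess `m + 1` of the tangent is no multiple of `m`. A
point on `m + 2` lines of `A` is joined by them to all covered points of the subplane off its Baer line.
-/

set_option autoImplicit false

open Finset Configuration

namespace Pool.Agent.Results.MP_06d6b9_co.MissesNearlyAll

open Pool.Agent.H300BC Pool.Agent.H300BC.One

open scoped Classical

universe u v

variable {P : Type u} {L : Type v} [Membership P L] [Fintype P] [Fintype L] [ProjectivePlane P L]

lemma identity_all {m : ℕ} {S : Finset P} {T A : Finset L} {X : P} (h : Setup1 m S T A X) :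
    ∑ Q : P, ((cov A Q : ℤ) - 1) * (m + 1 - cov A Q) = 0 := by
  have a1 := sum_cov (P := P) A
  have a2 := sum_cov_sq (P := P) A
  rw [h.card, h.ord] at a1 a2
  have a3 : Fintype.card P = (m ^ 2) ^ 2 + m ^ 2 + 1 := by
    rw [ProjectivePlane.card_points P L, h.ord]
  have e1 : ∑ Q : P, ((cov A Q : ℤ) - 1) * (m + 1 - cov A Q)
      = -((∑ Q : P, cov A Q * cov A Q : ℕ) : ℤ) + (m + 2) * ((∑ Q : P, cov A Q : ℕ) : ℤ)
        - (m + 1) * ((Fintype.card P : ℕ) : ℤ) := by
    rw [← card_univ, card_eq_sum_ones]
    push_cast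
    rw [mul_sum, mul_sum, ← sum_neg_distrib, ← sum_add_distrib, ← sum_sub_distrib]
    refine sum_congr rfl fun Q _ => ?_
    ring
  rw [e1, a1, a2, a3]
  push_cast
  ring

/-- the points of the subplane missed by `A` -/
noncomputable def UU (S : Finset P) (A : Finset L) : Finset P := {R ∈ S | cov A R = 0}

lemma many_missed {m : ℕ} {S : Finset P} {T A : Finset L} {X : P} (h : Setup1 m S T A X) :
    m ^ 2 + 4 ≤ (UU S A).card + 3 * m := by
  have hm := h.four
  by_cases hsup : ∃ Q : P, Q ∉ S ∧ cov A Q = m + 2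
  · -- a point on `m + 2` lines
    obtain ⟨Q, hQ, hQc⟩ := hsup
    obtain ⟨b, hbT, hQb, hb⟩ := exists_unique_line h.sub h.ord Q hQ
    have hjoin : ∀ R ∈ S, R ∉ b → cov A R ≠ 0 → ∀ l : L, Q ∈ l → R ∈ l → l ∈ A := by
      intro R hR hRb hcR l hQl hRl
      by_contra hlA
      have hlT : l ∉ T := fun h' => hRb ((hb l h' hQl) ▸ hRl)
      have hQR : Q ≠ R := fun h' => hQ (h' ▸ hR)
      have := sum_le_cov h hRl hR hlT hlA (Q := Q) (by simp [rest, hQR, hQl])
      omega
    have h7 : {R ∈ S | R ∉ b ∧ cov A R ≠ 0}.card ≤ cov A Q := by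
      choose f hf1 hf2 using fun R : P => exists_line (L := L) Q R
      rw [cov]
      refine card_le_card_of_injOn f (fun R hR => ?_) ?_
      · rw [mem_coe, mem_filter] at hR
        rw [mem_coe, mem_filter]
        exact ⟨hjoin R hR.1 hR.2.1 hR.2.2 (f R) (hf1 R) (hf2 R), hf1 R⟩
      · intro R hR R' hR' heq
        rw [mem_coe, mem_filter] at hR hR'
        by_contra hne
        have hT := h.sub.line_mem R hR.1 R' hR'.1 hne (f R) (hf2 R) (heq ▸ hf2 R')
        exact hR.2.1 ((hb (f R) hT (hf1 R)) ▸ hf2 R)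
    have h8 : {R ∈ S | cov A R ≠ 0}.card
        ≤ {R ∈ S | R ∈ b}.card + {R ∈ S | R ∉ b ∧ cov A R ≠ 0}.card := by
      refine le_trans (card_le_card ?_) (card_union_le _ _)
      intro R hR
      rw [mem_filter] at hR
      rw [mem_union, mem_filter, mem_filter]
      by_cases hRb : R ∈ b
      · exact Or.inl ⟨hR.1, hRb⟩
      · exact Or.inr ⟨hR.1, hRb, hR.2⟩
    rw [h.sub.card_on_line b hbT] at h8
    have h9 := card_filter_add_card_filter_not (s := S) (fun R => cov A R = 0)
    rw [h.sub.card_points] at h9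
    have h10 : {R ∈ S | ¬ cov A R = 0}.card = {R ∈ S | cov A R ≠ 0}.card := rfl
    have h11 : (UU S A).card = {R ∈ S | cov A R = 0}.card := rfl
    omega
  · push Not at hsup
    have hout : ∀ Q : P, Q ∉ S → cov A Q ≤ m + 1 := fun Q hQ => by
      have h1 := cov_out_le h hQ
      have h2 := hsup Q hQ
      omega
    have hall : ∀ Q : P, cov A Q ≤ m + 1 := fun Q => by
      by_cases hQ : Q ∈ S
      · exact cov_le h hQ
      · exact hout Q hQ
    -- the tangents through `X`
    set Tan : Finset L := {l ∈ (univ : Finset L) | X ∈ l ∧ l ∉ T} with hTan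
    have hTc : Tan.card + m = m ^ 2 := card_tangents h h.memX
    have hex : ∀ t ∈ Tan, ∃ Q : P, Q ∈ t ∧ Q ≠ X ∧ Q ∉ S ∧ 2 ≤ cov A Q ∧ cov A Q ≤ m := by
      intro t ht
      rw [hTan, mem_filter] at ht
      obtain ⟨-, hXt, htT⟩ := ht
      have htA := notMem_of_missX h hXt
      have h1 := sum_rest h hXt
      rw [if_neg htA, add_zero, h.missX, zero_add] at h1
      by_contra hno
      push Not at hno
      have h2 : ∀ Q ∈ rest t X, ∃ k : ℕ, cov A Q = 1 + m * k := by
        intro Q hQ
        have hQS := rest_out h hXt h.memX htT hQ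
        have hQ' := hQ
        rw [rest, mem_erase, mem_filter] at hQ'
        have h3 := h.cover Q hQS
        have h4 := hout Q hQS
        rcases Nat.lt_or_ge (cov A Q) 2 with h5 | h5
        · exact ⟨0, by omega⟩
        · have := hno Q hQ'.2.2 hQ'.1 hQS h5
          exact ⟨1, by omega⟩
      have : Nonempty P := ⟨X⟩
      choose! k hk using h2
      have h3 : ∑ Q ∈ rest t X, cov A Q = (rest t X).card + m * ∑ Q ∈ rest t X, k Q := by
        rw [sum_congr rfl hk, sum_add_distrib, mul_sum]
        simp
      rw [h1, card_rest h hXt] at h3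
      set K := ∑ Q ∈ rest t X, k Q with hK
      have h4 : m * K = m + 1 := by omega
      have h5 : m ∣ 1 := (Nat.dvd_add_right (dvd_refl m)).1 (h4 ▸ Dvd.intro K rfl)
      have h6 := Nat.le_of_dvd one_pos h5
      omega
    have : Nonempty P := ⟨X⟩
    choose! f hf using hex
    have hinj : Set.InjOn f (Tan : Set L) := by
      intro t ht t' ht' heq
      rw [mem_coe] at ht ht'
      have h1 := hf t ht
      have h2 := hf t' ht'
      rw [hTan, mem_filter] at ht ht'
      exact uniq h1.1 ht.2.1 (heq ▸ h2.1) ht'.2.1 h1.2.1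
    have hid := identity_all h
    rw [← sum_filter_add_sum_filter_not univ (fun Q : P => cov A Q = 0)] at hid
    have hU : ({Q ∈ (univ : Finset P) | cov A Q = 0} : Finset P) = UU S A := by
      ext Q
      rw [UU, mem_filter, mem_filter]
      constructor
      · rintro ⟨-, h1⟩
        refine ⟨?_, h1⟩
        by_contra h2
        have := h.cover Q h2
        omega
      · rintro ⟨-, h1⟩; exact ⟨mem_univ Q, h1⟩
    have h1 : ∑ Q ∈ {Q ∈ (univ : Finset P) | cov A Q = 0}, ((cov A Q : ℤ) - 1) * (m + 1 - cov A Q)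
        = -((m : ℤ) + 1) * (UU S A).card := by
      rw [hU, mul_comm, ← nsmul_eq_mul, ← sum_const]
      refine sum_congr rfl fun Q hQ => ?_
      rw [UU, mem_filter] at hQ
      rw [hQ.2]
      push_cast
      ring
    have hnn : ∀ Q ∈ ({Q ∈ (univ : Finset P) | ¬ cov A Q = 0} : Finset P),
        0 ≤ ((cov A Q : ℤ) - 1) * (m + 1 - cov A Q) := by
      intro Q hQ
      rw [mem_filter] at hQ
      have h2 : 1 ≤ cov A Q := by omega
      have h3 := hall Q
      have h2' : (1 : ℤ) ≤ cov A Q := by exact_mod_cast h2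
      have h3' : (cov A Q : ℤ) ≤ m + 1 := by exact_mod_cast h3
      exact mul_nonneg (by linarith) (by linarith)
    have hsub : Tan.image f ⊆ ({Q ∈ (univ : Finset P) | ¬ cov A Q = 0} : Finset P) := by
      intro Q hQ
      rw [mem_image] at hQ
      obtain ⟨t, ht, rfl⟩ := hQ
      have := (hf t ht).2.2.2.1
      rw [mem_filter]
      exact ⟨mem_univ _, by omega⟩
    have h2 := sum_le_sum_of_subset_of_nonneg hsub fun Q hQ _ => hnn Q hQ
    have h3 : (Tan.image f).card • ((m : ℤ) - 1)
        ≤ ∑ Q ∈ Tan.image f, ((cov A Q : ℤ) - 1) * (m + 1 - cov A Q) := by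
      refine card_nsmul_le_sum _ _ _ fun Q hQ => ?_
      rw [mem_image] at hQ
      obtain ⟨t, ht, rfl⟩ := hQ
      obtain ⟨-, -, -, h5, h6⟩ := hf t ht
      have h5' : (2 : ℤ) ≤ cov A (f t) := by exact_mod_cast h5
      have h6' : (cov A (f t) : ℤ) ≤ m := by exact_mod_cast h6
      nlinarith
    rw [card_image_of_injOn hinj, nsmul_eq_mul] at h3
    rw [h1] at hid
    have hTc' : (Tan.card : ℤ) = (m : ℤ) ^ 2 - m := by
      have : ((Tan.card + m : ℕ) : ℤ) = ((m ^ 2 : ℕ) : ℤ) := by rw [hTc]
      push_cast at this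
      linarith
    rw [hTc'] at h3
    have h4 : ((m : ℤ) ^ 2 - m) * (m - 1) ≤ (m + 1) * (UU S A).card := by linarith
    have hm' : (4 : ℤ) ≤ m := by exact_mod_cast hm
    by_contra hcon
    push Not at hcon
    have h5 : ((UU S A).card : ℤ) ≤ m ^ 2 - 3 * m + 3 := by
      have : (((UU S A).card + 3 * m : ℕ) : ℤ) < ((m ^ 2 + 4 : ℕ) : ℤ) := by exact_mod_cast hcon
      push_cast at this
      linarith
    have h6 : ((m : ℤ) + 1) * (UU S A).card ≤ (m + 1) * (m ^ 2 - 3 * m + 3) :=
      mul_le_mul_of_nonneg_left h5 (by linarith)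
    nlinarith

/-- **Line sets with at most `q + √q + 1` lines covering the complement of a Baer subplane.** Let
`m ≥ 4` and let `P`, `L` be the points and lines of any projective plane of order `q = m ^ 2`. Let the
points `S` and the lines `T` form a projective plane of order `m` (a Baer subplane), and let `A` be a set
of at most `q + m + 1` lines which covers every point outside `S`. Then `A` covers every point, or it
misses at least `q - 3 m + 4` of the `q + m + 1` points of `S`. -/
theorem result (P : Type u) (L : Type v) [Membership P L] [Fintype P] [Fintype L]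
    [ProjectivePlane P L] (m : ℕ) (hm : 4 ≤ m) (hq : ProjectivePlane.order P L = m ^ 2)
    (S : Finset P) (T : Finset L) (hS : IsSubplane m S T) (A : Finset L)
    (hA : A.card ≤ ProjectivePlane.order P L + m + 1)
    (hcov : ∀ p : P, p ∉ S → ∃ l ∈ A, p ∈ l) :
    (∀ p : P, ∃ l ∈ A, p ∈ l) ∨
      ProjectivePlane.order P L + 4 ≤ {p ∈ S | ∀ l ∈ A, p ∉ l}.card + 3 * m := by
  by_cases hcon : ∀ p : P, ∃ l ∈ A, p ∈ l
  · exact Or.inl hcon
  right
  push Not at hcon
  obtain ⟨X, hX⟩ := hcon
  have hXS : X ∈ S := by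
    by_contra h'
    obtain ⟨l, h1, h2⟩ := hcov X h'
    exact hX l h1 h2
  have hsub : A ⊆ {l ∈ (univ : Finset L) | X ∉ l} := by
    intro l hl
    exact mem_filter.2 ⟨mem_univ l, hX l hl⟩
  have hbig : m ^ 2 + m + 1 ≤ {l ∈ (univ : Finset L) | X ∉ l}.card := by
    have h1 := card_filter_add_card_filter_not (s := (univ : Finset L)) (fun l => X ∈ l)
    rw [card_point', card_univ, ProjectivePlane.card_lines P L, hq] at h1
    have h2 : m + 1 ≤ m ^ 2 := by nlinarith
    have h3 : 2 * m ^ 2 ≤ (m ^ 2) ^ 2 := by nlinarith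
    omega
  rw [hq] at hA
  obtain ⟨B, hAB, hBX, hB⟩ := exists_subsuperset_card_eq hsub hA hbig
  have hset : Setup1 m S T B X := by
    refine ⟨hS, hq, hm, hB, ?_, hXS, ?_⟩
    · intro Q hQ
      obtain ⟨l, h1, h2⟩ := hcov Q hQ
      rw [cov, Nat.one_le_iff_ne_zero, Ne, card_eq_zero]
      intro h'
      have : l ∈ ({l ∈ B | Q ∈ l} : Finset L) := mem_filter.2 ⟨hAB h1, h2⟩
      rw [h'] at this
      exact absurd this (notMem_empty l)
    · rw [cov, card_eq_zero, filter_eq_empty_iff]
      intro l hl
      exact (mem_filter.1 (hBX hl)).2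
  have h1 := many_missed hset
  have h2 : (UU S B).card ≤ {p ∈ S | ∀ l ∈ A, p ∉ l}.card := by
    refine card_le_card fun p hp => ?_
    rw [UU, mem_filter, cov, card_eq_zero, filter_eq_empty_iff] at hp
    exact mem_filter.2 ⟨hp.1, fun l hl => hp.2 (hAB hl)⟩
  rw [hq]
  omega

end Pool.Agent.Results.MP_06d6b9_co.MissesNearlyAll
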