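import Pool.Agent.H300BC.Fin

/-!
MP_06d6b9_co: line sets with at most `q + √q` lines which cover the complement of a Baer subplane.

Proof idea. Let `m = √q` and suppose that a set `A` of `q + m` lines covers all points outside the
Baer subplane but misses its point `X`. Counting on tangents shows that points outside are on at most
`m + 1` lines of `A` and points of the subplane on at most `m`. With `c` the number of lines of `A` on a
point and `x` the number of lines of the subplane in `A`, double counting gives
`∑ (c - 1) (m + 1 - c) + ∑ c (m - c) = m (m + 1 - 2 x)`, the sums over the points outside and inside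
the subplane. The left side is too large if some covered point of the subplane is not on exactly `m`
lines of `A`. So there are `m + 1 + x` covered points, each point outside on two lines of `A` is joined
to all of them by lines of `A`, and counting on the lines of the subplane leaves no value of `x`.
-/

set_option autoImplicit false

open Finset Configuration

namespace Pool.Agent.Results.MP_06d6b9_co.UpToQPlusRootQ

open Pool.Agent.H300BC

open scoped Classical

universe u v

variable {P : Type u} {L : Type v} [Membership P L] [Fintype P] [Fintype L] [ProjectivePlane P L]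

lemma contra {m : ℕ} {S : Finset P} {T A : Finset L} {X : P} (h : Setup m S T A X) : False := by
  have hm := h.four
  have hx := two_xx_le h
  have hC := card_CC h
  have hm' : (4 : ℤ) ≤ m := by exact_mod_cast hm
  rcases Nat.lt_or_ge (xx T A) 1 with hx0 | hx1
  · -- no line of the subplane in `A`
    have hx0' : xx T A = 0 := by omega
    have hnA : ∀ b ∈ T, b ∉ A := by
      intro b hb hbA
      rw [xx, card_eq_zero] at hx0'
      have : b ∈ ({l ∈ A | l ∈ T} : Finset L) := mem_filter.2 ⟨hbA, hb⟩
      rw [hx0'] at this
      exact absurd this (notMem_empty b)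
    obtain ⟨R, hR⟩ : (CC S A).Nonempty := by rw [← card_pos, hC]; omega
    have hRS : R ∈ S := (mem_filter.1 hR).1
    have h1 := sum_j h hRS
    rw [if_pos hR, hC, hx0'] at h1
    have h2 : ∀ b ∈ {b ∈ T | R ∈ b}, {R' ∈ CC S A | R' ∈ b}.card = 2 := by
      intro b hb
      rw [mem_filter] at hb
      have h3 := j_le_two h hb.1 (hnA b hb.1)
      have h4 : 0 < {R' ∈ CC S A | R' ∈ b}.card :=
        card_pos.2 ⟨R, mem_filter.2 ⟨hR, hb.2⟩⟩
      have h5 := baer_line h hb.1 (hnA b hb.1)
      have h6 : {R' ∈ CC S A | R' ∈ b}.card = 1 ∨ {R' ∈ CC S A | R' ∈ b}.card = 2 := by omega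
      rcases h6 with h6 | h6
      · exfalso
        rw [h6, hx0'] at h5
        push_cast at h5
        have h7 : ((MM S A b).card : ℤ) * (m - 1) = m := by linarith
        have h8 : ((m : ℤ) - 1) ∣ 1 := by
          have : ((m : ℤ) - 1) ∣ m := Dvd.intro_left _ h7
          have h9 := dvd_sub this (dvd_refl ((m : ℤ) - 1))
          simpa using h9
        have h9 := Int.le_of_dvd one_pos h8
        linarith
      · exact h6
    rw [sum_congr rfl h2, sum_const, h.sub.card_through R hRS, smul_eq_mul] at h1
    omega
  · -- lines of the subplane through `X`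
    have hXA : ∀ b ∈ {b ∈ T | X ∈ b}, b ∉ A := fun b hb =>
      notMem_of_missX h (mem_filter.1 hb).2
    have hXC : X ∉ CC S A := fun h' => (mem_filter.1 h').2 h.missX
    rcases Nat.lt_or_ge (xx T A) 2 with hx2 | hx2
    · -- exactly one line of the subplane in `A`
      have hx1' : xx T A = 1 := by omega
      obtain ⟨b0, hb0⟩ := card_eq_one.1 hx1'
      have hb0' : b0 ∈ ({l ∈ A | l ∈ T} : Finset L) := by rw [hb0]; exact mem_singleton_self b0
      rw [mem_filter] at hb0'
      have huniq : ∀ b ∈ T, b ∈ A → b = b0 := by
        intro b hb hbA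
        have : b ∈ ({l ∈ A | l ∈ T} : Finset L) := mem_filter.2 ⟨hbA, hb⟩
        rw [hb0] at this
        exact mem_singleton.1 this
      have hb0C : {R ∈ CC S A | R ∈ b0} = {R ∈ S | R ∈ b0} := by
        ext R
        simp only [CC, mem_filter]
        constructor
        · rintro ⟨⟨h1, -⟩, h2⟩; exact ⟨h1, h2⟩
        · rintro ⟨h1, h2⟩
          refine ⟨⟨h1, ?_⟩, h2⟩
          rw [cov, Ne, card_eq_zero]
          intro h'
          have : b0 ∈ ({l ∈ A | R ∈ l} : Finset L) := mem_filter.2 ⟨hb0'.1, h2⟩
          rw [h'] at this
          exact absurd this (notMem_empty b0)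
      have hsplit := card_filter_add_card_filter_not (s := CC S A) (fun R => R ∈ b0)
      rw [hb0C, h.sub.card_on_line b0 hb0'.2, hC, hx1'] at hsplit
      have hone : {R ∈ CC S A | R ∉ b0}.card = 1 := by omega
      obtain ⟨R0, hR0⟩ := card_eq_one.1 hone
      have hR0' : R0 ∈ ({R ∈ CC S A | R ∉ b0} : Finset P) := by
        rw [hR0]; exact mem_singleton_self R0
      rw [mem_filter] at hR0'
      have hR0S : R0 ∈ S := (mem_filter.1 hR0'.1).1
      have hcR0 := cov_of_mem_CC h hR0'.1
      obtain ⟨t, ht⟩ : ({l ∈ A | R0 ∈ l} : Finset L).Nonempty := by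
        rw [← card_pos]
        change 0 < cov A R0
        omega
      rw [mem_filter] at ht
      have htb0 : t ≠ b0 := fun h' => hR0'.2 (h' ▸ ht.2)
      have htT : t ∉ T := fun h' => htb0 (huniq t h' ht.1)
      have h1 := sum_rest h ht.2
      rw [if_pos ht.1, hcR0] at h1
      -- the intersection with `b0`
      obtain ⟨hZt, hZb⟩ := HasPoints.mkPoint_ax (P := P) htb0
      set Z : P := HasPoints.mkPoint htb0 with hZ
      have hZR0 : Z ≠ R0 := fun h' => hR0'.2 (h' ▸ hZb)
      have hZrest : Z ∈ rest t R0 := by simp [rest, hZR0, hZt]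
      have hZS : Z ∉ S := rest_out h ht.2 hR0S htT hZrest
      have hZ2 : 2 ≤ cov A Z := by
        rw [cov]
        have : ({t, b0} : Finset L) ⊆ {l ∈ A | Z ∈ l} := by
          intro l hl
          rw [mem_insert, mem_singleton] at hl
          rcases hl with rfl | rfl
          · exact mem_filter.2 ⟨ht.1, hZt⟩
          · exact mem_filter.2 ⟨hb0'.1, hZb⟩
        calc 2 = ({t, b0} : Finset L).card := (card_pair htb0).symm
          _ ≤ _ := card_le_card this
      have hZc := cov_multi h hZS hZ2 hb0'.2 hZb
      rw [if_pos hb0'.1, hone] at hZc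
      -- the other points
      have hoth : ∀ Q ∈ (rest t R0).erase Z, ∃ k : ℕ, cov A Q = 1 + m * k := by
        intro Q hQ
        rw [mem_erase] at hQ
        have hQS : Q ∉ S := rest_out h ht.2 hR0S htT hQ.2
        have hQt : Q ∈ t := by
          have := hQ.2
          rw [rest, mem_erase, mem_filter] at this
          exact this.2.2
        have hQ1 := h.cover Q hQS
        rcases Nat.lt_or_ge (cov A Q) 2 with hlt | hge
        · exact ⟨0, by omega⟩
        · obtain ⟨b, hbT, hQb, -⟩ := exists_unique_line h.sub h.ord Q hQS
          have hbb0 : b ≠ b0 := fun h' =>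
            hQ.1 (uniqp hQt hZt (by rw [← h']; exact hQb) hZb htb0)
          have hbA : b ∉ A := fun h' => hbb0 (huniq b hbT h')
          have hc := cov_multi h hQS hge hbT hQb
          rw [if_neg hbA, add_zero] at hc
          have hsp := card_filter_add_card_filter_not (s := CC S A) (fun R => R ∈ b)
          rw [hC, hx1'] at hsp
          have h5 := baer_line h hbT hbA
          have h6 := j_le_two h hbT hbA
          have hMpos : 0 < (MM S A b).card :=
            card_pos.2 ⟨Q, by simp [MM, hQb, hQS, hge]⟩
          set μ := (MM S A b).card with hμ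
          rw [hx1'] at h5
          push_cast at h5
          generalize hj : {R ∈ CC S A | R ∈ b}.card = j at h5 h6 hsp
          have hj3 : j = 0 ∨ j = 1 ∨ j = 2 := by omega
          rcases hj3 with rfl | rfl | rfl
          · exfalso
            push_cast at h5
            have h7 : (μ : ℤ) * (m + 1) = 2 * m := by linarith
            have h8 : ((m : ℤ) + 1) ∣ 2 := by
              have h9 : ((m : ℤ) + 1) ∣ 2 * m := Dvd.intro_left _ h7
              have h10 : ((m : ℤ) + 1) ∣ 2 * (m + 1) := Dvd.intro_left 2 rfl
              have h11 := dvd_sub h10 h9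
              have : (2 : ℤ) * (m + 1) - 2 * m = 2 := by ring
              rwa [this] at h11
            have h9 := Int.le_of_dvd (by norm_num) h8
            linarith
          · exact ⟨1, by omega⟩
          · exfalso
            push_cast at h5
            have h7 : (μ : ℤ) * (m - 1) = 0 := by linarith
            have h8 : (1 : ℤ) ≤ μ := by exact_mod_cast hMpos
            nlinarith
      have h2 := add_sum_erase (rest t R0) (cov A) hZrest
      choose! k hk using hoth
      have h3 : ∑ Q ∈ (rest t R0).erase Z, cov A Q
          = ((rest t R0).erase Z).card + m * ∑ Q ∈ (rest t R0).erase Z, k Q := by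
        rw [sum_congr rfl hk, sum_add_distrib, mul_sum]
        simp
      rw [card_erase_of_mem hZrest, card_rest h ht.2] at h3
      rw [hZc] at h2
      have hm2 : 1 ≤ m ^ 2 := Nat.one_le_pow _ _ (by omega)
      set K := ∑ Q ∈ (rest t R0).erase Z, k Q with hK
      have h4 : m * K + 1 = m * m := by
        have : m ^ 2 = m * m := by ring
        omega
      have h5 : m ∣ 1 := (Nat.dvd_add_right (Dvd.intro K rfl)).1 (h4 ▸ Dvd.intro m rfl)
      have h6 := Nat.le_of_dvd one_pos h5
      omega
    · -- at least two lines of the subplane in `A`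
      have h1 := sum_j h h.memX
      rw [if_neg hXC, add_zero, hC] at h1
      have hx' : (2 : ℤ) ≤ xx T A := by exact_mod_cast hx2
      have hxm : 2 * (xx T A : ℤ) ≤ m + 1 := by exact_mod_cast hx
      have h2 : ∀ b ∈ {b ∈ T | X ∈ b}, {R' ∈ CC S A | R' ∈ b}.card = 2 := by
        intro b hb
        have hbA := hXA b hb
        rw [mem_filter] at hb
        have h3 := j_le_two h hb.1 hbA
        have h5 := baer_line h hb.1 hbA
        generalize hj : {R' ∈ CC S A | R' ∈ b}.card = j at h3 h5 ⊢
        set μ := (MM S A b).card with hμ
        have hj3 : j = 0 ∨ j = 1 ∨ j = 2 := by omega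
        rcases hj3 with rfl | rfl | rfl
        · exfalso
          push_cast at h5
          have h7 : (μ : ℤ) * (m + xx T A) = 2 * m := by linarith
          rcases Nat.lt_or_ge μ 2 with h8 | h8
          · have h9 : μ = 0 ∨ μ = 1 := by omega
            rcases h9 with h9 | h9
            · rw [h9] at h7; push_cast at h7; linarith
            · rw [h9] at h7; push_cast at h7; linarith
          · have h9 : (2 : ℤ) ≤ μ := by exact_mod_cast h8
            nlinarith
        · exfalso
          push_cast at h5
          have h7 : (μ : ℤ) * (m + xx T A - 1) = m := by linarith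
          rcases Nat.eq_zero_or_pos μ with h8 | h8
          · rw [h8] at h7; push_cast at h7; linarith
          · have h9 : (1 : ℤ) ≤ μ := by exact_mod_cast h8
            nlinarith
        · rfl
      rw [sum_congr rfl h2, sum_const, h.sub.card_through X h.memX, smul_eq_mul] at h1
      omega

/-- **Line sets with at most `q + √q` lines covering the complement of a Baer subplane.** Let `m ≥ 4`
and let `P`, `L` be the points and lines of any projective plane of order `q = m ^ 2`. Let the points `S`
and the lines `T` form a projective plane of order `m` (a Baer subplane), and let `A` be a set of at most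
`q + m` lines which covers every point outside `S`. Then `A` covers every point. -/
theorem result (P : Type u) (L : Type v) [Membership P L] [Fintype P] [Fintype L]
    [ProjectivePlane P L] (m : ℕ) (hm : 4 ≤ m) (hq : ProjectivePlane.order P L = m ^ 2)
    (S : Finset P) (T : Finset L) (hS : IsSubplane m S T) (A : Finset L)
    (hA : A.card ≤ ProjectivePlane.order P L + m)
    (hcov : ∀ p : P, p ∉ S → ∃ l ∈ A, p ∈ l) : ∀ p : P, ∃ l ∈ A, p ∈ l := by
  by_contra hcon
  push Not at hcon
  obtain ⟨X, hX⟩ := hcon
  have hXS : X ∈ S := by
    by_contra h'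
    obtain ⟨l, h1, h2⟩ := hcov X h'
    exact hX l h1 h2
  -- enlarge `A` to exactly `m ^ 2 + m` lines missing `X`
  have hsub : A ⊆ {l ∈ (univ : Finset L) | X ∉ l} := by
    intro l hl
    exact mem_filter.2 ⟨mem_univ l, hX l hl⟩
  have hbig : m ^ 2 + m ≤ {l ∈ (univ : Finset L) | X ∉ l}.card := by
    have h1 := card_filter_add_card_filter_not (s := (univ : Finset L)) (fun l => X ∈ l)
    rw [card_point', card_univ, ProjectivePlane.card_lines P L, hq] at h1
    have h2 : m ≤ m ^ 2 := by nlinarith
    have h3 : 2 * m ^ 2 ≤ (m ^ 2) ^ 2 := by nlinarith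
    omega
  rw [hq] at hA
  obtain ⟨B, hAB, hBX, hB⟩ := exists_subsuperset_card_eq hsub hA hbig
  refine contra (m := m) (S := S) (T := T) (A := B) (X := X) ⟨hS, hq, hm, hB, ?_, hXS, ?_⟩
  · intro Q hQ
    obtain ⟨l, h1, h2⟩ := hcov Q hQ
    rw [cov, Nat.one_le_iff_ne_zero, Ne, card_eq_zero]
    intro h'
    have : l ∈ ({l ∈ B | Q ∈ l} : Finset L) := mem_filter.2 ⟨hAB h1, h2⟩
    rw [h'] at this
    exact absurd this (notMem_empty l)
  · rw [cov, card_eq_zero, filter_eq_empty_iff]
    intro l hl
    exact (mem_filter.1 (hBX hl)).2

end Pool.Agent.Results.MP_06d6b9_co.UpToQPlusRootQ
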